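import Pool.Agent.Helper15.RK.GoalsF
import Pool.Agent.Helper40.SP.STR

/-! # STRK: straightening of commuting holomorphic vector fields

The flow of `∑ t_α ξ_α` is the limit of the Euler approximations, which are holomorphic in `(z, t)`. -/

open Complex Metric Set Filter Topology
open scoped ContDiff

namespace Pool.Agent.Helper64.RK

open Pool.Agent.Helper95.Lin Pool.Agent.Helper16.Abund Pool.Agent.Helper10.SP
  Pool.Agent.Helper95.RK Pool.Agent.Helper15.RK
open Pool.Agent.Helper40.SP (eul eul_mem eul_conv)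

variable {b k : ℕ}

/-! ## Coordinates -/

theorem base_ptK (z : Cn b) (w : Cn k) : base (ptK z w) = z := by
  ext i
  simp [base, ptK]

theorem fib_ptK (z : Cn b) (w : Cn k) : fib (ptK z w) = w := by
  ext i
  simp [fib, ptK]

theorem ptK_base_fib (x : Cn (b + k)) : ptK (base x) (fib x) = x := by
  ext i
  refine Fin.addCases (fun i => ?_) (fun i => ?_) i
  · simp [ptK, base]
  · simp [ptK, fib]

/-- `base` as a linear map. -/
noncomputable def bL (b k : ℕ) : Cn (b + k) →L[ℂ] Cn b :=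
  ContinuousLinearMap.pi fun i => ContinuousLinearMap.proj (Fin.castAdd k i)

/-- `fib` as a linear map. -/
noncomputable def fL (b k : ℕ) : Cn (b + k) →L[ℂ] Cn k :=
  ContinuousLinearMap.pi fun i => ContinuousLinearMap.proj (Fin.natAdd b i)

theorem bL_apply (x : Cn (b + k)) : bL b k x = base x := rfl

theorem fL_apply (x : Cn (b + k)) : fL b k x = fib x := rfl

/-- The linear map with prescribed values on the basis vectors. -/
noncomputable def cmb {m n : ℕ} (w : Fin m → Cn n) : Cn m →L[ℂ] Cn n :=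
  ∑ i, (ContinuousLinearMap.proj (R := ℂ) (φ := fun _ : Fin m => ℂ) i).smulRight (w i)

theorem cmb_apply {m n : ℕ} (w : Fin m → Cn n) (z : Cn m) : cmb w z = ∑ i, z i • w i := by
  simp [cmb, sum_apply]

/-- The inclusion of the fibre. -/
noncomputable def iL (b k : ℕ) : Cn k →L[ℂ] Cn (b + k) := cmb (ef b)

theorem iL_apply (t : Cn k) : iL b k t = ∑ α, t α • ef b α := cmb_apply _ _

theorem iL_single (β : Fin k) : iL b k (Pi.single β 1) = ef b β := by
  rw [iL_apply, Finset.sum_eq_single β]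
  · simp
  · intro α _ h
    rw [Pi.single_eq_of_ne h, zero_smul]
  · intro h; exact absurd (Finset.mem_univ _) h

theorem fib_ef (β : Fin k) : fib (ef b β) = Pi.single β 1 := by
  ext α
  simp only [fib, ef]
  by_cases h : α = β
  · subst h; simp
  · rw [Pi.single_eq_of_ne h, Pi.single_eq_of_ne]
    intro h'
    exact h (Fin.natAdd_injective k b h')

theorem base_ef (β : Fin k) : base (ef b β) = (0 : Cn b) := by
  ext i
  simp only [base, ef, Pi.zero_apply]
  rw [Pi.single_apply, if_neg]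
  intro h
  have := congrArg Fin.val h
  simp at this
  omega

theorem iL_castAdd (t : Cn k) (i : Fin b) : iL b k t (Fin.castAdd k i) = 0 := by
  rw [iL_apply, Finset.sum_apply]
  refine Finset.sum_eq_zero fun α _ => ?_
  have := congrFun (base_ef (b := b) α) i
  simp only [base, Pi.zero_apply] at this
  rw [Pi.smul_apply, this, smul_zero]

theorem iL_natAdd (t : Cn k) (β : Fin k) : iL b k t (Fin.natAdd b β) = t β := by
  rw [iL_apply, Finset.sum_apply, Finset.sum_eq_single β]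
  · have := congrFun (fib_ef (b := b) β) β
    simp only [fib, Pi.single_eq_same] at this
    rw [Pi.smul_apply, this, smul_eq_mul, mul_one]
  · intro α _ h
    have := congrFun (fib_ef (b := b) α) β
    simp only [fib] at this
    rw [Pi.smul_apply, this, Pi.single_eq_of_ne (Ne.symm h), smul_zero]
  · intro h; exact absurd (Finset.mem_univ _) h

theorem ptK_eq (z : Cn b) (t : Cn k) : ptK z t = ptK z 0 + iL b k t := by
  ext j
  refine Fin.addCases (fun j => ?_) (fun j => ?_) j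
  · rw [Pi.add_apply, iL_castAdd]
    simp [ptK]
  · rw [Pi.add_apply, iL_natAdd]
    simp [ptK]

theorem isOpen_prodK {U : Set (Cn b)} {V : Set (Cn k)} (hU : IsOpen U) (hV : IsOpen V) :
    IsOpen (prodK U V) :=
  (hU.preimage (bL b k).continuous).inter (hV.preimage (fL b k).continuous)

theorem eul_smul {n : ℕ} (ξ : Cn n → Cn n) (c h : ℂ) (j : ℕ) (y : Cn n) :
    eul (fun y => c • ξ y) h j y = eul ξ (h * c) j y := by
  induction j with
  | zero => rfl
  | succ j ih =>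
    simp only [eul]
    rw [ih, smul_smul]

/-- The linear combination of the fields. -/
def eta {n : ℕ} (ξ : Fin k → Cn n → Cn n) (u : Cn k) (y : Cn n) : Cn n := ∑ α, u α • ξ α y

theorem eta_smul {n : ℕ} (ξ : Fin k → Cn n → Cn n) (c : ℂ) (u : Cn k) (y : Cn n) :
    eta ξ (c • u) y = c • eta ξ u y := by
  simp only [eta, Pi.smul_apply, smul_eq_mul, Finset.smul_sum, smul_smul]

/-! ## The flow -/

theorem flow {n : ℕ} {W : Set (Cn n)} (hW : IsOpen W) {p : Cn n} (hp : p ∈ W)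
    (ι : Cn b →L[ℂ] Cn n) (ξ : Fin k → Cn n → Cn n)
    (hξ : ∀ α, DifferentiableOn ℂ (ξ α) W) :
    ∃ r > 0, ∃ σ : Cn (b + k) → Cn n,
      DifferentiableOn ℂ σ (prodK (ball (0 : Cn b) r) (ball (0 : Cn k) r)) ∧
      MapsTo σ (prodK (ball (0 : Cn b) r) (ball (0 : Cn k) r)) W ∧
      (∀ x ∈ prodK (ball (0 : Cn b) r) (ball (0 : Cn k) r),
        fderiv ℂ σ x (iL b k (fib x)) = eta ξ (fib x) (σ x)) ∧
      ∀ z ∈ ball (0 : Cn b) r, σ (ptK z 0) = p + ι z := by
  -- the ball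
  obtain ⟨R, hR, hRW⟩ := Metric.nhds_basis_closedBall.mem_iff.1 (hW.mem_nhds hp)
  have hbW : ball p R ⊆ W := ball_subset_closedBall.trans hRW
  have hcomp : IsCompact (closedBall p R) := isCompact_closedBall p R
  choose A₀ hA₀ using fun α => hcomp.exists_bound_of_continuousOn ((hξ α).continuousOn.mono hRW)
  have hA₀0 : ∀ α, 0 ≤ A₀ α := fun α =>
    (norm_nonneg _).trans (hA₀ α p (mem_closedBall_self hR.le))
  choose L₀ hL₀ using fun α => hcomp.exists_bound_of_continuousOn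
    ((holo_fderiv hW (hξ α)).continuousOn.mono hRW)
  have hL₀0 : ∀ α, 0 ≤ L₀ α := fun α =>
    (norm_nonneg _).trans (hL₀ α p (mem_closedBall_self hR.le))
  set A : ℝ := ∑ α, A₀ α with hAdef
  set L : ℝ := ∑ α, L₀ α with hLdef
  have hA : 0 ≤ A := Finset.sum_nonneg fun α _ => hA₀0 α
  have hL : 0 ≤ L := Finset.sum_nonneg fun α _ => hL₀0 α
  have hb : ∀ u : Cn k, ‖u‖ ≤ 1 → ∀ y ∈ ball p R, ‖eta ξ u y‖ ≤ A := by
    intro u hu y hy
    refine (norm_sum_le _ _).trans (Finset.sum_le_sum fun α _ => ?_)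
    rw [norm_smul]
    calc ‖u α‖ * ‖ξ α y‖ ≤ 1 * A₀ α :=
          mul_le_mul ((norm_le_pi_norm u α).trans hu) (hA₀ α y (ball_subset_closedBall hy))
            (norm_nonneg _) zero_le_one
      _ = A₀ α := one_mul _
  have hl : ∀ u : Cn k, ‖u‖ ≤ 1 → ∀ y ∈ ball p R, ∀ z ∈ ball p R,
      ‖eta ξ u y - eta ξ u z‖ ≤ L * ‖y - z‖ := by
    intro u hu y hy z hz
    have e : eta ξ u y - eta ξ u z = ∑ α, u α • (ξ α y - ξ α z) := by
      simp only [eta, smul_sub, Finset.sum_sub_distrib]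
    rw [e, hLdef, Finset.sum_mul]
    refine (norm_sum_le _ _).trans (Finset.sum_le_sum fun α _ => ?_)
    rw [norm_smul]
    have h1 : ‖ξ α y - ξ α z‖ ≤ L₀ α * ‖y - z‖ := by
      refine Convex.norm_image_sub_le_of_norm_fderiv_le (𝕜 := ℂ) (f := ξ α) (s := ball p R) ?_ ?_
        (convex_ball p R) hz hy
      · intro x hx
        exact (hξ α).differentiableAt (hW.mem_nhds (hbW hx))
      · intro x hx
        exact hL₀ α x (ball_subset_closedBall hx)
    calc ‖u α‖ * ‖ξ α y - ξ α z‖ ≤ 1 * (L₀ α * ‖y - z‖) :=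
          mul_le_mul ((norm_le_pi_norm u α).trans hu) h1 (norm_nonneg _) zero_le_one
      _ = L₀ α * ‖y - z‖ := one_mul _
  -- real time solutions
  obtain ⟨δ₀, hδ₀, hsol⟩ := Pool.Agent.Helper3.Lin.PLU (m := k) (ball p R) isOpen_ball
    ξ (fun α => (hξ α).mono hbW) (closedBall p (R / 2))
    (closedBall_subset_ball (by linarith)) (isCompact_closedBall _ _)
  obtain ⟨T, hT0, hTδ, hTA⟩ : ∃ T : ℝ, 0 < T ∧ T ≤ δ₀ ∧ T * A < R / 2 := by
    refine ⟨min δ₀ (R / (4 * (A + 1))), lt_min hδ₀ (by positivity), min_le_left _ _, ?_⟩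
    calc min δ₀ (R / (4 * (A + 1))) * A ≤ R / (4 * (A + 1)) * A := by
          gcongr; exact min_le_right _ _
      _ = R / 4 * (A / (A + 1)) := by field_simp
      _ ≤ R / 4 * 1 := by
          have : A / (A + 1) ≤ 1 := by rw [div_le_one (by linarith)]; linarith
          gcongr
      _ < R / 2 := by linarith
  have hsol' : ∀ y ∈ ball p (R / 2), ∀ u : Cn k, ‖u‖ ≤ 1 →
      ∃ x, Sol (ball p R) (fun y => (1 : ℂ) • eta ξ u y) y T x := by
    intro y hy u hu
    obtain ⟨x, hx0, hx⟩ := hsol u hu y (ball_subset_closedBall hy)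
    refine ⟨x, hx0, fun t ht => ?_⟩
    have h1 := hx t ⟨ht.1, ht.2.trans hTδ⟩
    refine ⟨h1.1, ?_⟩
    have h2 := h1.2.mono (Icc_subset_Icc_right hTδ)
    show HasDerivWithinAt x ((1 : ℂ) • eta ξ u (x t)) (Icc 0 T) t
    rw [one_smul]
    exact h2
  obtain ⟨r, hr0, hrT, hrR⟩ : ∃ r : ℝ, 0 < r ∧ r ≤ T ∧ r * (‖ι‖ + 1) ≤ R / 2 := by
    refine ⟨min T (R / 2 / (‖ι‖ + 1)), lt_min hT0 (by positivity), min_le_left _ _, ?_⟩
    calc min T (R / 2 / (‖ι‖ + 1)) * (‖ι‖ + 1) ≤ R / 2 / (‖ι‖ + 1) * (‖ι‖ + 1) := by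
          gcongr; exact min_le_right _ _
      _ = R / 2 := by field_simp
  set Q : Set (Cn (b + k)) := prodK (ball 0 r) (ball 0 r) with hQ
  have hQo : IsOpen Q := isOpen_prodK isOpen_ball isOpen_ball
  have hx0mem : ∀ z ∈ ball (0 : Cn b) r, p + ι z ∈ ball p (R / 2) := by
    intro z hz
    rw [mem_ball_zero_iff] at hz
    rw [mem_ball, dist_eq_norm, add_sub_cancel_left]
    calc ‖ι z‖ ≤ ‖ι‖ * ‖z‖ := ι.le_opNorm z
      _ ≤ (‖ι‖ + 1) * ‖z‖ := by gcongr; linarith
      _ < (‖ι‖ + 1) * r := by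
          have : 0 < ‖ι‖ + 1 := by positivity
          exact mul_lt_mul_of_pos_left hz this
      _ ≤ R / 2 := by rw [mul_comm]; exact hrR
  -- the Euler approximations
  set E : ℕ → Cn (b + k) → Cn n := fun N x =>
    eul (eta ξ (fib x)) (1 / ((N + 1 : ℕ) : ℂ)) (N + 1) (p + ι (base x)) with hE
  have hdir : ∀ c : Cn k, ∃ u : Cn k, ‖u‖ ≤ 1 ∧ (‖c‖ : ℂ) • u = c := by
    intro c
    rcases eq_or_ne c 0 with rfl | hc
    · exact ⟨0, by simp, by simp⟩
    · have hc' : (‖c‖ : ℂ) ≠ 0 := by exact_mod_cast norm_ne_zero_iff.2 hc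
      refine ⟨(‖c‖ : ℂ)⁻¹ • c, ?_, ?_⟩
      · rw [norm_smul, norm_inv, Complex.norm_real, norm_norm,
          inv_mul_cancel₀ (norm_ne_zero_iff.2 hc)]
      · rw [smul_smul, mul_inv_cancel₀ hc', one_smul]
  have heulr : ∀ (u : Cn k) (s : ℝ) (c : Cn k), (s : ℂ) • u = c → ∀ (N j : ℕ) (y : Cn n),
      eul (eta ξ c) (1 / ((N + 1 : ℕ) : ℂ)) j y =
        eul (eta ξ u) ((s : ℂ) * 1 / ((N + 1 : ℕ) : ℂ)) j y := by
    intro u s c hc N j y
    have e : eta ξ c = fun y => (s : ℂ) • eta ξ u y := by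
      funext y; rw [← hc, eta_smul]
    rw [e, eul_smul]
    congr 1
    ring
  have hmemE : ∀ N : ℕ, ∀ x ∈ Q, ∀ j ≤ N + 1,
      eul (eta ξ (fib x)) (1 / ((N + 1 : ℕ) : ℂ)) j (p + ι (base x)) ∈ ball p R := by
    intro N x hx j hj
    obtain ⟨u, hu, hu'⟩ := hdir (fib x)
    have h1 : ‖fib x‖ < r := by have := hx.2; rwa [mem_ball_zero_iff] at this
    rw [heulr u ‖fib x‖ (fib x) hu' N j]
    refine (eul_mem hA (hb u hu) (hx0mem _ hx.1) (N := N + 1) ?_ j hj).2
    have h2 : ((N + 1 : ℕ) : ℝ) * ‖(‖fib x‖ : ℂ) * 1 / ((N + 1 : ℕ) : ℂ)‖ = ‖fib x‖ := by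
      rw [mul_one, norm_div, Complex.norm_natCast, Complex.norm_real, norm_norm]
      have : ((N + 1 : ℕ) : ℝ) ≠ 0 := by positivity
      field_simp
    rw [h2]
    refine lt_of_le_of_lt ?_ hTA
    exact mul_le_mul_of_nonneg_right (h1.le.trans hrT) hA
  have hEd : ∀ N, DifferentiableOn ℂ (E N) Q := by
    intro N
    have key : ∀ j ≤ N + 1, DifferentiableOn ℂ
        (fun x : Cn (b + k) => eul (eta ξ (fib x)) (1 / ((N + 1 : ℕ) : ℂ)) j
          (p + ι (base x))) Q := by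
      intro j
      induction j with
      | zero =>
        intro _
        simp only [eul]
        have : Differentiable ℂ (fun x : Cn (b + k) => p + ι (bL b k x)) :=
          (ι.comp (bL b k)).differentiable.const_add p
        exact this.differentiableOn
      | succ j ih =>
        intro hj
        have h1 := ih (by omega)
        simp only [eul]
        refine h1.add ((differentiableOn_const _).fun_smul ?_)
        simp only [eta]
        refine DifferentiableOn.fun_sum fun α _ => ?_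
        have h2 : DifferentiableOn ℂ (fun x : Cn (b + k) => fib x α) Q := by
          have h3 : (fun x : Cn (b + k) => fib x α) =
              fun x => ((ContinuousLinearMap.proj (R := ℂ) (φ := fun _ : Fin (b + k) => ℂ)
                (Fin.natAdd b α)) : Cn (b + k) →L[ℂ] ℂ) x := rfl
          rw [h3]
          exact ContinuousLinearMap.differentiableOn _
        refine h2.smul ?_
        refine (hξ α).comp h1 ?_
        intro x hx
        exact hbW (hmemE N x hx j (by omega))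
    exact key (N + 1) le_rfl
  -- the limit
  have hlim : ∀ x ∈ Q, ∀ u : Cn k, ‖u‖ ≤ 1 → ∀ s ∈ Icc (0 : ℝ) T, (s : ℂ) • u = fib x →
      ∀ X, Sol (ball p R) (fun y => (1 : ℂ) • eta ξ u y) (p + ι (base x)) T X → ∀ N,
      ‖X s - E N x‖ ≤ A * T * Real.exp (L * T) / ((N + 1 : ℕ) : ℝ) := by
    intro x hx u hu s hs hsu X hX N
    have := eul_conv hA hL (hb u hu) (hl u hu) hTA (hx0mem _ hx.1) (w := 1) (by simp) hX hs
      (Nat.succ_pos N)
    simp only [hE]
    rw [heulr u s (fib x) hsu N (N + 1)]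
    exact this
  have hex : ∀ x : Cn (b + k), ∃ y, x ∈ Q → ∃ u : Cn k, ‖u‖ ≤ 1 ∧ (‖fib x‖ : ℂ) • u = fib x ∧
      ∃ X, Sol (ball p R) (fun y => (1 : ℂ) • eta ξ u y) (p + ι (base x)) T X ∧
        y = X ‖fib x‖ := by
    intro x
    by_cases hx : x ∈ Q
    · obtain ⟨u, hu, hu'⟩ := hdir (fib x)
      obtain ⟨X, hX⟩ := hsol' _ (hx0mem _ hx.1) u hu
      exact ⟨X ‖fib x‖, fun _ => ⟨u, hu, hu', X, hX, rfl⟩⟩
    · exact ⟨0, fun h => absurd h hx⟩
  choose σ hσ using hex
  have hconst : Tendsto (fun N : ℕ => A * T * Real.exp (L * T) / ((N + 1 : ℕ) : ℝ)) atTop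
      (𝓝 0) := by
    have := tendsto_const_div_atTop_nhds_zero_nat (A * T * Real.exp (L * T))
    exact this.comp (tendsto_add_atTop_nat 1)
  have hσE : ∀ x ∈ Q, ∀ N, ‖E N x - σ x‖ ≤ A * T * Real.exp (L * T) / ((N + 1 : ℕ) : ℝ) := by
    intro x hx N
    obtain ⟨u, hu, hu', X, hX, h1⟩ := hσ x hx
    have h2 : ‖fib x‖ < r := by have := hx.2; rwa [mem_ball_zero_iff] at this
    have := hlim x hx u hu ‖fib x‖ ⟨norm_nonneg _, h2.le.trans hrT⟩ hu' X hX N
    rw [h1, norm_sub_rev]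
    exact this
  have hσX : ∀ x ∈ Q, ∀ u : Cn k, ‖u‖ ≤ 1 → ∀ s ∈ Icc (0 : ℝ) T, (s : ℂ) • u = fib x →
      ∀ X, Sol (ball p R) (fun y => (1 : ℂ) • eta ξ u y) (p + ι (base x)) T X → σ x = X s := by
    intro x hx u hu s hs hsu X hX
    have h1 : Tendsto (fun N => E N x) atTop (𝓝 (σ x)) := by
      rw [tendsto_iff_norm_sub_tendsto_zero]
      exact squeeze_zero (fun _ => norm_nonneg _) (hσE x hx) hconst
    have h2 : Tendsto (fun N => E N x) atTop (𝓝 (X s)) := by
      rw [tendsto_iff_norm_sub_tendsto_zero]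
      refine squeeze_zero (fun _ => norm_nonneg _) (fun N => ?_) hconst
      rw [norm_sub_rev]
      exact hlim x hx u hu s hs hsu X hX N
    exact tendsto_nhds_unique h1 h2
  have hσW : MapsTo σ Q (ball p R) := by
    intro x hx
    obtain ⟨u, hu, hu', X, hX, h1⟩ := hσ x hx
    have h2 : ‖fib x‖ < r := by have := hx.2; rwa [mem_ball_zero_iff] at this
    rw [h1]
    exact (hX.2 _ ⟨norm_nonneg _, h2.le.trans hrT⟩).1
  have hσd : DifferentiableOn ℂ σ Q := by
    refine (Pool.Agent.Helper94.Lin.dlim Q hQo E σ hEd ?_).1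
    intro K hK _ ε hε
    filter_upwards [hconst.eventually (gt_mem_nhds hε)] with N hN z hz
    exact (hσE z (hK hz) N).trans hN.le
  refine ⟨r, hr0, σ, hσd, fun x hx => hbW (hσW hx), ?_, ?_⟩
  · -- the differential equation
    intro x hx
    have hx2 : ‖fib x‖ < r := by have := hx.2; rwa [mem_ball_zero_iff] at this
    obtain ⟨u, hu, hu'⟩ := hdir (fib x)
    obtain ⟨X, hX⟩ := hsol' _ (hx0mem _ hx.1) u hu
    have hs : ‖fib x‖ ∈ Ico (0 : ℝ) r := ⟨norm_nonneg _, hx2⟩
    have hsub : Ico (0 : ℝ) r ⊆ Icc 0 T := fun t ht => ⟨ht.1, ht.2.le.trans hrT⟩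
    have hc : ∀ t ∈ Ico (0 : ℝ) r, ptK (base x) ((t : ℂ) • u) ∈ Q := by
      intro t ht
      refine ⟨?_, ?_⟩
      · rw [base_ptK]; exact hx.1
      · rw [fib_ptK, mem_ball_zero_iff, norm_smul, Complex.norm_real,
          Real.norm_of_nonneg ht.1]
        calc t * ‖u‖ ≤ t * 1 := mul_le_mul_of_nonneg_left hu ht.1
          _ < r := by rw [mul_one]; exact ht.2
    have heq : ∀ t ∈ Ico (0 : ℝ) r, σ (ptK (base x) ((t : ℂ) • u)) = X t := by
      intro t ht
      refine hσX _ (hc t ht) u hu t (hsub ht) (fib_ptK _ _).symm X ?_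
      rw [base_ptK]; exact hX
    have hxe : ptK (base x) ((‖fib x‖ : ℂ) • u) = x := by rw [hu', ptK_base_fib]
    have hcurve : ∀ t : ℝ, ptK (base x) ((t : ℂ) • u) =
        ptK (base x) (0 : Cn k) + (t : ℂ) • iL b k u := by
      intro t
      rw [ptK_eq, map_smul]
    have hd1 : HasDerivAt (fun t : ℝ => ptK (base x) ((t : ℂ) • u)) (iL b k u) ‖fib x‖ := by
      have h4 : HasDerivAt (fun t : ℝ => (t : ℂ)) 1 ‖fib x‖ := by
        have := (hasDerivAt_id ‖fib x‖).ofReal_comp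
        simpa using this
      have h5 := (h4.smul_const (iL b k u)).const_add (ptK (base x) (0 : Cn k))
      rw [one_smul] at h5
      exact h5.congr_of_eventuallyEq (Eventually.of_forall hcurve)
    have hd2 : HasFDerivAt σ (fderiv ℂ σ x) (ptK (base x) ((‖fib x‖ : ℂ) • u)) := by
      rw [hxe]
      exact (hσd.differentiableAt (hQo.mem_nhds hx)).hasFDerivAt
    have hd3 : HasDerivAt (fun t : ℝ => σ (ptK (base x) ((t : ℂ) • u)))
        (fderiv ℂ σ x (iL b k u)) ‖fib x‖ := by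
      have := (hd2.restrictScalars ℝ).comp_hasDerivAt ‖fib x‖ hd1
      exact this
    have hd4 : HasDerivWithinAt X (fderiv ℂ σ x (iL b k u)) (Ico 0 r) ‖fib x‖ :=
      hd3.hasDerivWithinAt.congr (fun t ht => (heq t ht).symm) (heq _ hs).symm
    have hd5 : HasDerivWithinAt X ((1 : ℂ) • eta ξ u (X ‖fib x‖)) (Ico 0 r) ‖fib x‖ :=
      (hX.2 _ (hsub hs)).2.mono hsub
    have hun : UniqueDiffWithinAt ℝ (Ico (0 : ℝ) r) ‖fib x‖ := uniqueDiffOn_Ico 0 r _ hs
    have h6 := hun.eq_deriv _ hd4 hd5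
    have h7 := heq _ hs
    rw [hxe] at h7
    rw [one_smul, ← h7] at h6
    have h8 : iL b k (fib x) = (‖fib x‖ : ℂ) • iL b k u := by rw [← map_smul, hu']
    have h9 : eta ξ (fib x) (σ x) = (‖fib x‖ : ℂ) • eta ξ u (σ x) := by rw [← eta_smul, hu']
    rw [h8, map_smul, h6, h9]
  · intro z hz
    obtain ⟨X, hX⟩ := hsol' _ (hx0mem _ hz) 0 (by simp)
    have hm : ptK z (0 : Cn k) ∈ Q := by
      refine ⟨?_, ?_⟩
      · rw [base_ptK]; exact hz
      · rw [fib_ptK]; exact mem_ball_self hr0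
    have h1 := hσX (ptK z 0) hm 0 (by simp) 0 ⟨le_rfl, hT0.le⟩ (by rw [fib_ptK]; simp) X
      (by rw [base_ptK]; exact hX)
    rw [h1, hX.1]

/-! ## Commuting fields -/

theorem comm_step {n : ℕ} {W : Set (Cn n)} (hW : IsOpen W) {ξ : Fin k → Cn n → Cn n}
    (hξ : ∀ α, DifferentiableOn ℂ (ξ α) W)
    (hcom : ∀ x ∈ W, ∀ α β, fderiv ℂ (ξ β) x (ξ α x) = fderiv ℂ (ξ α) x (ξ β x))
    {r : ℝ} {σ : Cn (b + k) → Cn n}
    (hσ : DifferentiableOn ℂ σ (prodK (ball (0 : Cn b) r) (ball (0 : Cn k) r)))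
    (hσW : MapsTo σ (prodK (ball (0 : Cn b) r) (ball (0 : Cn k) r)) W)
    (hode : ∀ x ∈ prodK (ball (0 : Cn b) r) (ball (0 : Cn k) r),
        fderiv ℂ σ x (iL b k (fib x)) = eta ξ (fib x) (σ x)) :
    ∀ x ∈ prodK (ball (0 : Cn b) r) (ball (0 : Cn k) r), ∀ β,
      fderiv ℂ σ x (ef b β) = ξ β (σ x) := by
  intro x hx β
  set Q : Set (Cn (b + k)) := prodK (ball 0 r) (ball 0 r) with hQ
  have hQo : IsOpen Q := isOpen_prodK isOpen_ball isOpen_ball
  -- derivatives
  have hD1 : ∀ y ∈ Q, HasFDerivAt σ (fderiv ℂ σ y) y := fun y hy =>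
    (hσ.differentiableAt (hQo.mem_nhds hy)).hasFDerivAt
  have hD2 : ∀ y ∈ Q, HasFDerivAt (fderiv ℂ σ) (fderiv ℂ (fderiv ℂ σ) y) y := fun y hy =>
    ((holo_fderiv hQo hσ).differentiableAt (hQo.mem_nhds hy)).hasFDerivAt
  have hDξ : ∀ α, ∀ y ∈ Q, HasFDerivAt (fun z => ξ α (σ z))
      ((fderiv ℂ (ξ α) (σ y)).comp (fderiv ℂ σ y)) y := by
    intro α y hy
    have h1 : HasFDerivAt (ξ α) (fderiv ℂ (ξ α) (σ y)) (σ y) :=
      ((hξ α).differentiableAt (hW.mem_nhds (hσW hy))).hasFDerivAt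
    exact h1.comp y (hD1 y hy)
  have hsym : ∀ y ∈ Q, ∀ v w, fderiv ℂ (fderiv ℂ σ) y v w = fderiv ℂ (fderiv ℂ σ) y w v := by
    intro y hy
    have h1 : ContDiffAt ℂ ∞ σ y := (holo_contDiffOn hQo hσ).contDiffAt (hQo.mem_nhds hy)
    have h2 := h1.isSymmSndFDerivAt (by
      rw [minSmoothness_of_isRCLikeNormedField]
      have h3 : ((2 : ℕ∞) : WithTop ℕ∞) ≤ ((⊤ : ℕ∞) : WithTop ℕ∞) :=
        WithTop.coe_le_coe.2 le_top
      exact h3)
    exact h2
  -- the derivative of the equation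
  have hE : ∀ y ∈ Q, fderiv ℂ (fderiv ℂ σ) y (ef b β) (iL b k (fib y)) +
      fderiv ℂ σ y (ef b β) = ξ β (σ y) +
        ∑ α, fib y α • fderiv ℂ (ξ α) (σ y) (fderiv ℂ σ y (ef b β)) := by
    intro y hy
    have hfd : HasFDerivAt (fun z : Cn (b + k) => iL b k (fib z)) ((iL b k).comp (fL b k)) y :=
      ((iL b k).comp (fL b k)).hasFDerivAt
    have h1 := (hD2 y hy).clm_apply hfd
    have h2 : HasFDerivAt (fun z : Cn (b + k) => ∑ α, fib z α • ξ α (σ z))
        (∑ α, (fib y α • ((fderiv ℂ (ξ α) (σ y)).comp (fderiv ℂ σ y)) +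
          ((ContinuousLinearMap.proj (R := ℂ) (φ := fun _ : Fin k => ℂ) α).comp
            (fL b k)).smulRight (ξ α (σ y)))) y := by
      refine HasFDerivAt.fun_sum fun α _ => ?_
      have h3 : HasFDerivAt (fun z : Cn (b + k) => fib z α)
          ((ContinuousLinearMap.proj (R := ℂ) (φ := fun _ : Fin k => ℂ) α).comp (fL b k)) y :=
        ((ContinuousLinearMap.proj (R := ℂ) (φ := fun _ : Fin k => ℂ) α).comp
          (fL b k)).hasFDerivAt
      exact h3.smul (hDξ α y hy)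
    have h4 : (fun z : Cn (b + k) => fderiv ℂ σ z (iL b k (fib z))) =ᶠ[𝓝 y]
        fun z : Cn (b + k) => ∑ α, fib z α • ξ α (σ z) := by
      filter_upwards [hQo.mem_nhds hy] with z hz
      exact hode z hz
    have h5 := (h2.congr_of_eventuallyEq h4).unique h1
    have h6 := congrArg (fun Λ : Cn (b + k) →L[ℂ] Cn n => Λ (ef b β)) h5
    simp only [add_apply, sum_apply,
      smul_apply, ContinuousLinearMap.comp_apply,
      ContinuousLinearMap.smulRight_apply, ContinuousLinearMap.proj_apply,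
      ContinuousLinearMap.flip_apply, fL_apply, fib_ef, iL_single, Finset.sum_add_distrib] at h6
    have h7 : ∑ α, (Pi.single β 1 : Cn k) α • ξ α (σ y) = ξ β (σ y) := by
      rw [Finset.sum_eq_single β]
      · simp
      · intro α _ h
        rw [Pi.single_eq_of_ne h, zero_smul]
      · intro h; exact absurd (Finset.mem_univ _) h
    rw [h7] at h6
    rw [add_comm (ξ β (σ y)), h6, add_comm]
  -- the defect
  set Y : Cn (b + k) → Cn n := fun y => fderiv ℂ σ y (ef b β) - ξ β (σ y) with hY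
  have hYd : ∀ y ∈ Q, HasFDerivAt Y ((fderiv ℂ (fderiv ℂ σ) y).flip (ef b β) -
      (fderiv ℂ (ξ β) (σ y)).comp (fderiv ℂ σ y)) y := by
    intro y hy
    have h1 := (hD2 y hy).clm_apply (hasFDerivAt_const (ef b β) y)
    have h2 : HasFDerivAt (fun z => fderiv ℂ σ z (ef b β))
        ((fderiv ℂ (fderiv ℂ σ) y).flip (ef b β)) y := by
      refine h1.congr_fderiv ?_
      ext v
      simp
    exact h2.sub (hDξ β y hy)
  have hYr : ∀ y ∈ Q, ((fderiv ℂ (fderiv ℂ σ) y).flip (ef b β) -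
      (fderiv ℂ (ξ β) (σ y)).comp (fderiv ℂ σ y)) (iL b k (fib y)) =
      - Y y + ∑ α, fib y α • fderiv ℂ (ξ α) (σ y) (Y y) := by
    intro y hy
    have h1 := hE y hy
    have h2 : fderiv ℂ (ξ β) (σ y) (fderiv ℂ σ y (iL b k (fib y))) =
        ∑ α, fib y α • fderiv ℂ (ξ α) (σ y) (ξ β (σ y)) := by
      rw [hode y hy, eta, map_sum]
      refine Finset.sum_congr rfl fun α _ => ?_
      rw [map_smul, hcom _ (hσW hy)]
    have h3 : ∑ α, fib y α • fderiv ℂ (ξ α) (σ y) (Y y) =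
        ∑ α, fib y α • fderiv ℂ (ξ α) (σ y) (fderiv ℂ σ y (ef b β)) -
        ∑ α, fib y α • fderiv ℂ (ξ α) (σ y) (ξ β (σ y)) := by
      rw [← Finset.sum_sub_distrib]
      refine Finset.sum_congr rfl fun α _ => ?_
      rw [hY, ← smul_sub, ← map_sub]
    rw [sub_apply, ContinuousLinearMap.flip_apply,
      ContinuousLinearMap.comp_apply, h2, hsym y hy, h3]
    have h4 : fderiv ℂ (fderiv ℂ σ) y (ef b β) (iL b k (fib y)) = ξ β (σ y) +
        ∑ α, fib y α • fderiv ℂ (ξ α) (σ y) (fderiv ℂ σ y (ef b β)) -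
        fderiv ℂ σ y (ef b β) := eq_sub_of_add_eq h1
    rw [h4]
    simp only [hY]
    abel
  -- the radial curve
  set t : Cn k := fib x with ht
  set c : ℝ → Cn (b + k) := fun s => ptK (base x) ((s : ℂ) • t) with hc
  have hcurve : ∀ s : ℝ, c s = ptK (base x) (0 : Cn k) + (s : ℂ) • iL b k t := by
    intro s
    rw [hc]
    simp only
    rw [ptK_eq, map_smul]
  have hcd : ∀ s : ℝ, HasDerivAt c (iL b k t) s := by
    intro s
    have h4 : HasDerivAt (fun t : ℝ => (t : ℂ)) 1 s := by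
      have := (hasDerivAt_id s).ofReal_comp
      simpa using this
    have h5 := (h4.smul_const (iL b k t)).const_add (ptK (base x) (0 : Cn k))
    rw [one_smul] at h5
    exact h5.congr_of_eventuallyEq (Eventually.of_forall hcurve)
  have hcQ : ∀ s ∈ Icc (0 : ℝ) 1, c s ∈ Q := by
    intro s hs
    refine ⟨?_, ?_⟩
    · rw [hc]; simp only; rw [base_ptK]; exact hx.1
    · have hx2 : ‖t‖ < r := by have := hx.2; rwa [mem_ball_zero_iff] at this
      rw [hc]; simp only
      rw [fib_ptK, mem_ball_zero_iff, norm_smul, Complex.norm_real, Real.norm_of_nonneg hs.1]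
      calc s * ‖t‖ ≤ 1 * ‖t‖ := mul_le_mul_of_nonneg_right hs.2 (norm_nonneg _)
        _ < r := by rw [one_mul]; exact hx2
  set B : ℝ → (Cn n →L[ℂ] Cn n) := fun s => ∑ α, t α • fderiv ℂ (ξ α) (σ (c s)) with hB
  have hBc : ContinuousOn B (Icc 0 1) := by
    refine continuousOn_finsetSum _ fun α _ => continuousOn_const.fun_smul ?_
    refine (holo_fderiv hW (hξ α)).continuousOn.comp ?_ (fun s hs => hσW (hcQ s hs))
    refine hσ.continuousOn.comp ?_ (fun s hs => hcQ s hs)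
    exact fun s _ => (hcd s).continuousAt.continuousWithinAt
  obtain ⟨C, hC⟩ := (isCompact_Icc (a := (0 : ℝ)) (b := 1)).exists_bound_of_continuousOn hBc
  set y : ℝ → Cn n := fun s => (s : ℂ) • Y (c s) with hy
  have hyd : ∀ s ∈ Icc (0 : ℝ) 1, HasDerivAt y (B s (y s)) s := by
    intro s hs
    have h4 : HasDerivAt (fun t : ℝ => (t : ℂ)) 1 s := by
      have := (hasDerivAt_id s).ofReal_comp
      simpa using this
    have h5 : HasDerivAt (fun s => Y (c s)) (((fderiv ℂ (fderiv ℂ σ) (c s)).flip (ef b β) -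
        (fderiv ℂ (ξ β) (σ (c s))).comp (fderiv ℂ σ (c s))) (iL b k t)) s :=
      ((hYd _ (hcQ s hs)).restrictScalars ℝ).comp_hasDerivAt s (hcd s)
    have h6 := h4.smul h5
    refine h6.congr_deriv ?_
    have h7 := hYr _ (hcQ s hs)
    have h8 : fib (c s) = (s : ℂ) • t := by
      rw [hc]; simp only; rw [fib_ptK]
    rw [h8, map_smul, map_smul] at h7
    rw [h7, one_smul]
    simp only [hB, hy, sum_apply, smul_apply, Pi.smul_apply,
      smul_eq_mul, map_smul]
    have h9 : ∑ α, ((s : ℂ) * t α) • fderiv ℂ (ξ α) (σ (c s)) (Y (c s)) =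
        ∑ α, t α • (s : ℂ) • fderiv ℂ (ξ α) (σ (c s)) (Y (c s)) := by
      refine Finset.sum_congr rfl fun α _ => ?_
      rw [smul_smul, mul_comm]
    rw [h9, Finset.smul_sum, neg_add_eq_sub, sub_add_cancel]
    refine Finset.sum_congr rfl fun α _ => ?_
    rw [smul_comm]
  have hgr := norm_le_gronwallBound_of_norm_deriv_right_le (f := y) (f' := fun s => B s (y s))
    (δ := 0) (K := C) (ε := 0) (a := 0) (b := 1)
    (fun s hs => (hyd s hs).continuousAt.continuousWithinAt)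
    (fun s hs => (hyd s ⟨hs.1, hs.2.le⟩).hasDerivWithinAt)
    (by rw [hy]; simp)
    (by
      intro s hs
      rw [add_zero]
      exact (ContinuousLinearMap.le_opNorm _ _).trans
        (mul_le_mul_of_nonneg_right (hC s ⟨hs.1, hs.2.le⟩) (norm_nonneg _)))
    1 ⟨zero_le_one, le_rfl⟩
  rw [gronwallBound_ε0, zero_mul] at hgr
  have h1 : y 1 = 0 := norm_le_zero_iff.1 hgr
  have h2 : c 1 = x := by
    rw [hc]
    simp only
    rw [Complex.ofReal_one, one_smul, ht, ptK_base_fib]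
  rw [hy] at h1
  simp only at h1
  rw [h2, Complex.ofReal_one, one_smul] at h1
  exact sub_eq_zero.1 h1

/-! ## The theorem -/

theorem strk : S_STRK := by
  intro b k W hW p hp L w ξ hwi hLw hLξ hξ hcom
  obtain ⟨r, hr0, σ, hσd, hσW, hode, hini⟩ := flow (b := b) hW hp (cmb w) ξ hξ
  set Q : Set (Cn (b + k)) := prodK (ball 0 r) (ball 0 r) with hQ
  have hQo : IsOpen Q := isOpen_prodK isOpen_ball isOpen_ball
  have hcs := comm_step hW hξ hcom hσd hσW hode
  have hpt0 : (ptK (0 : Cn b) (0 : Cn k) : Cn (b + k)) = 0 := by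
    ext j
    refine Fin.addCases (fun j => ?_) (fun j => ?_) j <;> simp [ptK]
  have h0Q : (0 : Cn (b + k)) ∈ Q := by
    rw [← hpt0]
    refine ⟨?_, ?_⟩
    · rw [base_ptK]; exact mem_ball_self hr0
    · rw [fib_ptK]; exact mem_ball_self hr0
  have hσ0 : σ 0 = p := by
    have := hini 0 (mem_ball_self hr0)
    rw [hpt0] at this
    rw [this]; simp
  have hd0 : HasFDerivAt σ (fderiv ℂ σ 0) 0 :=
    (hσd.differentiableAt (hQo.mem_nhds h0Q)).hasFDerivAt
  have hDz : ∀ z : Cn b, fderiv ℂ σ 0 (ptK z 0) = cmb w z := by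
    intro z
    have h1 : HasDerivAt (fun t : ℂ => σ (t • ptK z (0 : Cn k))) (fderiv ℂ σ 0 (ptK z 0)) 0 := by
      have h2 : HasDerivAt (fun t : ℂ => t • (ptK z (0 : Cn k) : Cn (b + k))) (ptK z 0) 0 := by
        simpa using (hasDerivAt_id (0 : ℂ)).smul_const (ptK z (0 : Cn k) : Cn (b + k))
      have h3 : HasFDerivAt σ (fderiv ℂ σ 0) ((0 : ℂ) • (ptK z (0 : Cn k) : Cn (b + k))) := by
        rw [zero_smul]; exact hd0
      exact h3.comp_hasDerivAt 0 h2
    have h4 : HasDerivAt (fun t : ℂ => p + t • cmb w z) (cmb w z) 0 := by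
      simpa using ((hasDerivAt_id (0 : ℂ)).smul_const (cmb w z)).const_add p
    have h5 : (fun t : ℂ => σ (t • ptK z (0 : Cn k))) =ᶠ[𝓝 0] fun t : ℂ => p + t • cmb w z := by
      have h6 : ∀ᶠ t : ℂ in 𝓝 0, t • z ∈ ball (0 : Cn b) r := by
        have : Tendsto (fun t : ℂ => t • z) (𝓝 0) (𝓝 0) := by
          have h7 : Continuous fun t : ℂ => t • z := by fun_prop
          simpa using h7.tendsto 0
        exact this (ball_mem_nhds _ hr0)
      filter_upwards [h6] with t ht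
      have e : t • (ptK z (0 : Cn k) : Cn (b + k)) = ptK (t • z) 0 := by
        ext j
        refine Fin.addCases (fun j => ?_) (fun j => ?_) j <;> simp [ptK]
      show σ (t • ptK z (0 : Cn k)) = p + t • cmb w z
      rw [e, hini _ ht, map_smul]
    exact h1.unique (h4.congr_of_eventuallyEq h5)
  have hdet0 : (fderiv ℂ σ 0).det ≠ 0 := by
    intro hdet
    have h1 := LinearMap.bot_lt_ker_of_det_eq_zero (f := (fderiv ℂ σ 0 : Cn (b + k) →ₗ[ℂ] _)) hdet
    refine h1.ne' (LinearMap.ker_eq_bot'.2 ?_)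
    intro x hx
    have hx' : fderiv ℂ σ 0 x = 0 := hx
    have e : x = ptK (base x) 0 + iL b k (fib x) := by
      rw [← ptK_eq, ptK_base_fib]
    rw [e, map_add, hDz, iL_apply, map_sum] at hx'
    have e2 : ∀ α, fderiv ℂ σ 0 (fib x α • ef b α) = fib x α • ξ α p := by
      intro α
      rw [map_smul, hcs 0 h0Q, hσ0]
    rw [Finset.sum_congr rfl fun α _ => e2 α] at hx'
    have h2 := congrArg L hx'
    rw [map_add, cmb_apply, map_sum, map_sum, map_zero] at h2
    have h3 : ∑ i, L (base x i • w i) = 0 :=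
      Finset.sum_eq_zero fun i _ => by rw [map_smul, hLw, smul_zero]
    have h4 : ∑ α, L (fib x α • ξ α p) = fib x := by
      have h5 : ∀ α, L (fib x α • ξ α p) = fib x α • (Pi.single α 1 : Cn k) := by
        intro α
        rw [map_smul, hLξ p hp]
      rw [Finset.sum_congr rfl fun α _ => h5 α]
      ext β
      rw [Finset.sum_apply, Finset.sum_eq_single β]
      · simp
      · intro α _ h
        rw [Pi.smul_apply, Pi.single_eq_of_ne (Ne.symm h), smul_zero]
      · intro h; exact absurd (Finset.mem_univ _) h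
    rw [h3, h4, zero_add] at h2
    have h5 : ∑ α, fib x α • ξ α p = 0 := by
      rw [h2]; simp
    rw [h5, add_zero, cmb_apply] at hx'
    have h6 : base x = (0 : Cn b) := by
      funext i
      exact Fintype.linearIndependent_iff.1 hwi (base x) hx' i
    rw [e, h6, h2, map_zero, add_zero, hpt0]
  -- nearby
  have hcd : ContDiffAt ℂ 1 σ 0 :=
    ((holo_contDiffOn hQo hσd).contDiffAt (hQo.mem_nhds h0Q)).of_le (by simp)
  have hdetn : ∀ᶠ x in 𝓝 (0 : Cn (b + k)), (fderiv ℂ σ x).det ≠ 0 := by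
    have h1 : ContinuousAt (fun x => (fderiv ℂ σ x).det) 0 := by
      have h2 : ContinuousAt (fderiv ℂ σ) 0 :=
        ((holo_fderiv hQo hσd).continuousOn.continuousAt (hQo.mem_nhds h0Q))
      exact ContinuousLinearMap.continuous_det.continuousAt.comp h2
    exact h1.eventually_ne hdet0
  have hstr : HasStrictFDerivAt σ (fderiv ℂ σ 0) 0 := hcd.hasStrictFDerivAt one_ne_zero
  obtain ⟨f', hf'⟩ : ∃ f' : Cn (b + k) ≃L[ℂ] Cn (b + k),
      (f' : Cn (b + k) →L[ℂ] Cn (b + k)) = fderiv ℂ σ 0 :=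
    ⟨(fderiv ℂ σ 0).toContinuousLinearEquivOfDetNeZero hdet0, by
      ext x; simp⟩
  rw [← hf'] at hstr
  have hinj : ∃ U ∈ 𝓝 (0 : Cn (b + k)), InjOn σ U :=
    ⟨(hstr.toOpenPartialHomeomorph σ).source,
      (hstr.toOpenPartialHomeomorph σ).open_source.mem_nhds
        hstr.mem_toOpenPartialHomeomorph_source,
      (hstr.toOpenPartialHomeomorph σ).injOn⟩
  obtain ⟨U, hU, hUi⟩ := hinj
  obtain ⟨r', hr', hr'U⟩ := Metric.mem_nhds_iff.1
    (inter_mem (inter_mem hU (hQo.mem_nhds h0Q)) hdetn)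
  have hsub : prodK (ball (0 : Cn b) r') (ball (0 : Cn k) r') ⊆ ball (0 : Cn (b + k)) r' := by
    intro x hx
    rw [mem_ball_zero_iff, pi_norm_lt_iff hr']
    intro j
    have hx1 := hx.1
    have hx2 := hx.2
    rw [mem_ball_zero_iff] at hx1 hx2
    refine Fin.addCases (fun j => ?_) (fun j => ?_) j
    · exact (norm_le_pi_norm (base x) j).trans_lt hx1
    · exact (norm_le_pi_norm (fib x) j).trans_lt hx2
  have hQ' : prodK (ball (0 : Cn b) r') (ball (0 : Cn k) r') ⊆ Q := fun x hx =>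
    (hr'U (hsub hx)).1.2
  refine ⟨r', hr', σ, hσd.mono hQ', hUi.mono fun x hx => (hr'U (hsub hx)).1.1, ?_, hσ0, ?_⟩
  · intro x hx
    exact hσW (hQ' hx)
  · intro x hx
    exact ⟨(hr'U (hsub hx)).2, hcs x (hQ' hx)⟩

end Pool.Agent.Helper64.RK
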